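import Pool.Agent.helper54.MZ.Spec1

/-!
# mz:WND2: two curves with the same ends
-/

set_option autoImplicit false

open Complex Metric Set Filter Topology MeasureTheory

noncomputable section

namespace MZS

open MPS

theorem WND2_glue (a b : ℝ) (F F' : ℝ → ℂ) (hab : a ≤ b) (hF : ContinuousOn F (Icc a b))
    (hF' : ContinuousOn F' (Icc a b)) (h : F b = F' b) :
    ContinuousOn (fun t => if t ≤ b then F t else F' (2 * b - t)) (Icc a (2 * b - a)) := by
  have h1 : ContinuousOn (fun t => if t ≤ b then F t else F' (2 * b - t)) (Icc a b) :=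
    hF.congr fun t ht => if_pos ht.2
  have h2 : ContinuousOn (fun t => if t ≤ b then F t else F' (2 * b - t)) (Icc b (2 * b - a)) := by
    have h3 : ContinuousOn (fun t => F' (2 * b - t)) (Icc b (2 * b - a)) := by
      refine hF'.comp (by fun_prop) fun t ht => ?_
      constructor <;> linarith [ht.1, ht.2]
    refine h3.congr fun t ht => ?_
    rcases eq_or_lt_of_le ht.1 with h0 | h0
    · rw [← h0]
      simp only [le_refl, if_true]
      rw [h]
      congr 1
      ring
    · exact if_neg (not_le.mpr h0)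
  have h4 : Icc a (2 * b - a) = Icc a b ∪ Icc b (2 * b - a) :=
    (Icc_union_Icc_eq_Icc hab (by linarith)).symm
  rw [h4]
  exact h1.union_of_isClosed h2 isClosed_Icc isClosed_Icc

theorem WND2 (hW : WND_stmt) : WND2_stmt := by
  intro a b Γ Γ' L L' ω hab hΓ hΓ' ha hb hω hne hL hL' hexp hexp'
  rcases eq_or_lt_of_le hab with h0 | h0
  · subst h0
    ring
  have hb2 : ¬ (2 * b - a ≤ b) := by linarith
  have haI : a ∈ Icc a b := ⟨le_rfl, hab⟩
  have hbI : b ∈ Icc a b := ⟨hab, le_rfl⟩
  have hE : Complex.exp (L b) = Complex.exp (L' b) := by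
    rw [hexp b hbI, hexp' b hbI, hb, ha]
  have hrange : ∀ t ∈ Icc a (2 * b - a), ¬ t ≤ b → 2 * b - t ∈ Icc a b := by
    intro t ht htb
    constructor <;> linarith [ht.1, ht.2, not_le.mp htb]
  have key := hW a (2 * b - a) (fun t => if t ≤ b then Γ t else Γ' (2 * b - t))
    (fun t => if t ≤ b then L t else L' (2 * b - t) - L' b + L b) ω (by linarith)
    (WND2_glue a b Γ Γ' hab hΓ hΓ' hb) ?_ hω ?_ ?_ ?_
  · simp only [if_neg hb2, if_pos hab] at key
    have h2 : 2 * b - (2 * b - a) = a := by ring
    rw [h2] at key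
    linear_combination key
  · simp only [if_neg hb2, if_pos hab]
    have h2 : 2 * b - (2 * b - a) = a := by ring
    rw [h2, ha]
  · intro t ht t' ht'
    by_cases h1 : t ≤ b <;> by_cases h2 : t' ≤ b
    · simp only [if_pos h1, if_pos h2]
      exact (hne t ⟨ht.1, h1⟩ t' ⟨ht'.1, h2⟩).1
    · simp only [if_pos h1, if_neg h2]
      exact (hne t ⟨ht.1, h1⟩ _ (hrange t' ht' h2)).2.1
    · simp only [if_neg h1, if_pos h2]
      exact (hne _ (hrange t ht h1) t' ⟨ht'.1, h2⟩).2.2.1
    · simp only [if_neg h1, if_neg h2]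
      exact (hne _ (hrange t ht h1) _ (hrange t' ht' h2)).2.2.2
  · refine WND2_glue a b L (fun t => L' t - L' b + L b) hab hL ?_ (by ring)
    exact (hL'.sub continuousOn_const).add continuousOn_const
  · intro t ht
    by_cases h1 : t ≤ b
    · simp only [if_pos h1, if_pos hab]
      exact hexp t ⟨ht.1, h1⟩
    · simp only [if_neg h1, if_pos hab]
      rw [Complex.exp_add, Complex.exp_sub, hE, div_mul_cancel₀ _ (Complex.exp_ne_zero _),
        hexp' _ (hrange t ht h1), ha]

end MZS
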